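import Mathlib

/-!
# MP_a76a9f_al: the restricted Zariski topology

Necessary conditions on an infinite group `G` whose restricted Zariski topology is discrete.
-/

set_option autoImplicit false

open Topology Set

namespace Pool.Agent.Results.MP_a76a9f_al.NotDiscrete

universe u

/-- the sub-base of the restricted Zariski topology -/
def subbase (G : Type u) [Group G] : Set (Set G) :=
  {U | ∃ a b : G, b ^ 2 = 1 ∧ U = {x : G | x * b * x⁻¹ ≠ a * b * a⁻¹}} ∪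
  {U | ∃ b c : G, b ^ 2 = 1 ∧ c ^ 2 = 1 ∧
    U = {x : G | (x * c * x⁻¹) * b * (x * c * x⁻¹)⁻¹ ≠ b}}

/-- the restricted Zariski topology -/
def restrictedZariski (G : Type u) [Group G] : TopologicalSpace G :=
  TopologicalSpace.generateFrom (subbase G)

/-! ### Finite systems isolating `1` -/

/-- finitely many conditions isolating `1` -/
structure Iso {G : Type u} [Group G] (S T : Finset (G × G)) : Prop where
  s1 : ∀ p ∈ S, p.2 ^ 2 = 1 ∧ p.1 * p.2 * p.1⁻¹ ≠ p.2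
  t1 : ∀ p ∈ T, p.1 ^ 2 = 1 ∧ p.2 ^ 2 = 1 ∧ p.2 * p.1 * p.2⁻¹ ≠ p.1
  cov : ∀ x : G, x ≠ 1 → (∃ p ∈ S, x * p.2 * x⁻¹ = p.1 * p.2 * p.1⁻¹) ∨
    (∃ p ∈ T, (x * p.2 * x⁻¹) * p.1 * (x * p.2 * x⁻¹)⁻¹ = p.1)

section basic

variable {G : Type u} [Group G]

lemma exists_iso (h : restrictedZariski G = ⊥) : ∃ S T : Finset (G × G), Iso S T := by
  classical
  let τ : TopologicalSpace G := restrictedZariski G
  have hb := TopologicalSpace.isTopologicalBasis_of_subbasis (t := τ) (s := subbase G) rfl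
  have ho : @IsOpen G τ {1} := by
    have h0 : τ = ⊥ := h
    rw [h0]
    exact @isOpen_discrete G ⊥ (@DiscreteTopology.mk G ⊥ rfl) _
  obtain ⟨B, ⟨f, ⟨hf, hfs⟩, rfl⟩, h1, h2⟩ :=
    hb.mem_nhds_iff.1 (ho.mem_nhds (rfl : (1 : G) ∈ ({1} : Set G)))
  have key : ∀ U : Set G, ∃ p : G × G, U ∈ f →
      ((p.2 ^ 2 = 1 ∧ U = {x : G | x * p.2 * x⁻¹ ≠ p.1 * p.2 * p.1⁻¹}) ∨
      (p.1 ^ 2 = 1 ∧ p.2 ^ 2 = 1 ∧
        U = {x : G | (x * p.2 * x⁻¹) * p.1 * (x * p.2 * x⁻¹)⁻¹ ≠ p.1})) := by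
    intro U
    by_cases hU : U ∈ f
    · rcases hfs hU with ⟨a, b, hb2, rfl⟩ | ⟨b, c, hb2, hc2, rfl⟩
      · exact ⟨(a, b), fun _ => Or.inl ⟨hb2, rfl⟩⟩
      · exact ⟨(b, c), fun _ => Or.inr ⟨hb2, hc2, rfl⟩⟩
    · exact ⟨(1, 1), fun h => absurd h hU⟩
  choose q hq using key
  let I : Set G → Prop := fun U => (q U).2 ^ 2 = 1 ∧
    U = {x : G | x * (q U).2 * x⁻¹ ≠ (q U).1 * (q U).2 * (q U).1⁻¹}
  let J : Set G → Prop := fun U => (q U).1 ^ 2 = 1 ∧ (q U).2 ^ 2 = 1 ∧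
        U = {x : G | (x * (q U).2 * x⁻¹) * (q U).1 * (x * (q U).2 * x⁻¹)⁻¹ ≠ (q U).1}
  refine ⟨(hf.toFinset.filter I).image q, (hf.toFinset.filter J).image q, ?_, ?_, ?_⟩
  · intro p hp
    rw [Finset.mem_image] at hp
    obtain ⟨U, hU, rfl⟩ := hp
    rw [Finset.mem_filter, Set.Finite.mem_toFinset] at hU
    obtain ⟨hUf, hI1, hI2⟩ := hU
    refine ⟨hI1, fun h3 => ?_⟩
    have h4 : (1 : G) ∈ U := h1 U hUf
    rw [hI2] at h4
    exact h4 (by simpa using h3.symm)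
  · intro p hp
    rw [Finset.mem_image] at hp
    obtain ⟨U, hU, rfl⟩ := hp
    rw [Finset.mem_filter, Set.Finite.mem_toFinset] at hU
    obtain ⟨hUf, hI1, hI2, hI3⟩ := hU
    refine ⟨hI1, hI2, fun h3 => ?_⟩
    have h4 : (1 : G) ∈ U := h1 U hUf
    rw [hI3] at h4
    exact h4 (by simpa using h3)
  · intro x hx
    have h3 : x ∉ ⋂₀ f := fun h => hx (h2 h)
    rw [mem_sInter] at h3
    push Not at h3
    obtain ⟨U, hUf, hxU⟩ := h3
    rcases hq U hUf with hI | hJ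
    · left
      refine ⟨q U, Finset.mem_image.2 ⟨U, ?_, rfl⟩, ?_⟩
      · rw [Finset.mem_filter, Set.Finite.mem_toFinset]
        exact ⟨hUf, hI⟩
      · rw [hI.2] at hxU
        simpa using hxU
    · right
      refine ⟨q U, Finset.mem_image.2 ⟨U, ?_, rfl⟩, ?_⟩
      · rw [Finset.mem_filter, Set.Finite.mem_toFinset]
        exact ⟨hUf, hJ⟩
      · rw [hJ.2.2] at hxU
        simpa using hxU

end basic

/-! ### Ramsey's theorem for pairs -/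

lemma ramsey {κ : Type*} [Finite κ] (col : ℕ → ℕ → κ) :
    ∃ c : κ, ∃ φ : ℕ → ℕ, ∀ m n, m < n → φ m < φ n ∧ col (φ m) (φ n) = c := by
  classical
  let U : Ultrafilter ℕ := Filter.hyperfilter ℕ
  have h1 : ∀ i, ∃ a, U.map (col i) = pure a := fun i => Ultrafilter.eq_pure_of_finite _
  choose c hc using h1
  obtain ⟨c0, hc0⟩ := Ultrafilter.eq_pure_of_finite (U.map c)
  have h2 : ∀ i, {j | col i j = c i} ∈ U := by
    intro i
    have h3 : ({c i} : Set κ) ∈ U.map (col i) := by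
      rw [hc i]
      exact Ultrafilter.mem_pure.2 rfl
    exact Ultrafilter.mem_map.1 h3
  have h3 : {i | c i = c0} ∈ U := by
    have h4 : ({c0} : Set κ) ∈ U.map c := by
      rw [hc0]
      exact Ultrafilter.mem_pure.2 rfl
    exact Ultrafilter.mem_map.1 h4
  have h4 : ∀ i : ℕ, {j | i < j} ∈ U := by
    intro i
    have h5 : ({j | i < j} : Set ℕ)ᶜ.Finite := by
      refine (Set.finite_Iic i).subset ?_
      intro j hj
      simpa using hj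
    have h6 : {j | i < j} ∈ (Filter.hyperfilter ℕ : Filter ℕ) := by
      have := Set.Finite.compl_mem_hyperfilter h5
      rwa [compl_compl] at this
    exact h6
  obtain ⟨φ, -, h6⟩ := exists_seq_of_forall_finset_exists (fun i : ℕ => c i = c0)
    (fun i j => i < j ∧ col i j = c0) (by
      intro s hs
      have h5 : (⋂ i ∈ s, ({j | i < j} ∩ {j | col i j = c i})) ∩ {i | c i = c0} ∈ (U : Filter ℕ) := by
        refine Filter.inter_mem ?_ h3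
        exact (Filter.biInter_finset_mem s).2 fun i _ => Filter.inter_mem (h4 i) (h2 i)
      obtain ⟨y, hy1, hy2⟩ := Filter.nonempty_of_mem h5
      refine ⟨y, hy2, fun i hi => ?_⟩
      have h7 := mem_iInter₂.1 hy1 i hi
      exact ⟨h7.1, by rw [← hs i hi]; exact h7.2⟩)
  exact ⟨c0, φ, h6⟩

section chain

variable {G : Type u} [Group G]

/-- Colouring of the pairs of a sequence of distinct elements. -/
lemma Iso.ramsey {S T : Finset (G × G)} (h : Iso S T) (X : ℕ → G) (hX : Function.Injective X) :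
    ∃ p ∈ T, ∃ φ : ℕ → ℕ, (∀ m n, m < n → φ m < φ n) ∧ ∀ m n, m < n →
      ((X (φ m))⁻¹ * X (φ n) * p.2 * ((X (φ m))⁻¹ * X (φ n))⁻¹) * p.1 *
        ((X (φ m))⁻¹ * X (φ n) * p.2 * ((X (φ m))⁻¹ * X (φ n))⁻¹)⁻¹ = p.1 := by
  classical
  have key : ∀ i j : ℕ, ∃ q : {p // p ∈ S} ⊕ {p // p ∈ T} ⊕ Unit, i < j →
      (∃ p, q = Sum.inl p ∧ ((X i)⁻¹ * X j) * p.1.2 * ((X i)⁻¹ * X j)⁻¹ = p.1.1 * p.1.2 * p.1.1⁻¹) ∨
      (∃ p, q = Sum.inr (Sum.inl p) ∧ ((X i)⁻¹ * X j * p.1.2 * ((X i)⁻¹ * X j)⁻¹) * p.1.1 *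
        ((X i)⁻¹ * X j * p.1.2 * ((X i)⁻¹ * X j)⁻¹)⁻¹ = p.1.1) := by
    intro i j
    by_cases hij : i < j
    · have hne : (X i)⁻¹ * X j ≠ 1 := fun h0 => by
        have : X i = X j := inv_mul_eq_one.1 h0
        exact absurd (hX this) (by omega)
      rcases h.cov _ hne with ⟨p, hp, h5⟩ | ⟨p, hp, h5⟩
      · exact ⟨Sum.inl ⟨p, hp⟩, fun _ => Or.inl ⟨⟨p, hp⟩, rfl, h5⟩⟩
      · exact ⟨Sum.inr (Sum.inl ⟨p, hp⟩), fun _ => Or.inr ⟨⟨p, hp⟩, rfl, h5⟩⟩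
    · exact ⟨Sum.inr (Sum.inr ()), fun h0 => absurd h0 hij⟩
  choose q hq using key
  obtain ⟨c, φ, hφ⟩ := NotDiscrete.ramsey q
  rcases c with p | p | ⟨⟩
  · exfalso
    have h1 : ∀ m n, m < n → ((X (φ m))⁻¹ * X (φ n)) * p.1.2 * ((X (φ m))⁻¹ * X (φ n))⁻¹ =
        p.1.1 * p.1.2 * p.1.1⁻¹ := by
      intro m n hmn
      obtain ⟨h2, h3⟩ := hφ m n hmn
      rcases hq _ _ h2 with ⟨p', h4, h5⟩ | ⟨p', h4, h5⟩
      · rw [h3] at h4
        cases h4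
        exact h5
      · rw [h3] at h4
        cases h4
    have e01 := h1 0 1 (by omega)
    have e12 := h1 1 2 (by omega)
    have e02 := h1 0 2 (by omega)
    have e : (X (φ 0))⁻¹ * X (φ 2) * p.1.2 * ((X (φ 0))⁻¹ * X (φ 2))⁻¹ =
        ((X (φ 0))⁻¹ * X (φ 1)) * (((X (φ 1))⁻¹ * X (φ 2)) * p.1.2 * ((X (φ 1))⁻¹ * X (φ 2))⁻¹) *
          ((X (φ 0))⁻¹ * X (φ 1))⁻¹ := by group
    rw [e02, e12, ← e01] at e
    have e3 : p.1.2 = p.1.1 * p.1.2 * p.1.1⁻¹ := by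
      have h7 := congrArg (fun y => ((X (φ 0))⁻¹ * X (φ 1))⁻¹ * y * ((X (φ 0))⁻¹ * X (φ 1))) e
      have e4 : ((X (φ 0))⁻¹ * X (φ 1))⁻¹ * ((X (φ 0))⁻¹ * X (φ 1) * p.1.2 *
        ((X (φ 0))⁻¹ * X (φ 1))⁻¹) * ((X (φ 0))⁻¹ * X (φ 1)) = p.1.2 := by group
      have e5 : ((X (φ 0))⁻¹ * X (φ 1))⁻¹ * ((X (φ 0))⁻¹ * X (φ 1) * ((X (φ 0))⁻¹ * X (φ 1) * p.1.2 *
        ((X (φ 0))⁻¹ * X (φ 1))⁻¹) * ((X (φ 0))⁻¹ * X (φ 1))⁻¹) * ((X (φ 0))⁻¹ * X (φ 1)) =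
        (X (φ 0))⁻¹ * X (φ 1) * p.1.2 * ((X (φ 0))⁻¹ * X (φ 1))⁻¹ := by group
      simp only [e4, e5] at h7
      exact h7.trans e01
    exact (h.s1 p.1 p.2).2 e3.symm
  · refine ⟨p.1, p.2, φ, fun m n hmn => (hφ m n hmn).1, fun m n hmn => ?_⟩
    obtain ⟨h2, h3⟩ := hφ m n hmn
    rcases hq _ _ h2 with ⟨p', h4, h5⟩ | ⟨p', h4, h5⟩
    · rw [h3] at h4
      cases h4
    · rw [h3] at h4
      cases h4
      exact h5
  · exfalso
    obtain ⟨h2, h3⟩ := hφ 0 1 (by omega)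
    rcases hq _ _ h2 with ⟨p', h4, h5⟩ | ⟨p', h4, h5⟩
    · rw [h3] at h4
      cases h4
    · rw [h3] at h4
      cases h4

end chain

/-- **Let `G` be an infinite group whose restricted Zariski topology is discrete.  There is a finite
set `T` of pairs `(b, c)` of non-commuting involutions such that every sequence of distinct elements
of `G` has a subsequence `y` for which, for some `(b, c)` in `T`, the conjugate of `c` by `y n`
commutes with the conjugate of `b` by `y m` for all `m < n`, and does not for `m = n`.  In particular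
`G` has an infinite strictly descending chain of centralizers of finite sets of conjugate
involutions.** -/
theorem result (G : Type u) [Group G] [Infinite G] (hG : restrictedZariski G = ⊥) :
    (∃ T : Finset (G × G), (∀ p ∈ T, p.1 ^ 2 = 1 ∧ p.2 ^ 2 = 1 ∧ ¬ Commute p.2 p.1) ∧
      ∀ x : ℕ → G, Function.Injective x → ∃ p ∈ T, ∃ φ : ℕ → ℕ, StrictMono φ ∧
        ∀ m n : ℕ, m ≤ n →
          (Commute (x (φ n) * p.2 * (x (φ n))⁻¹) (x (φ m) * p.1 * (x (φ m))⁻¹) ↔ m < n)) ∧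
    ∃ β : ℕ → G, (∀ n, β n ^ 2 = 1 ∧ IsConj (β 0) (β n)) ∧
      StrictAnti fun n : ℕ => Subgroup.centralizer (β '' Set.Iio n) := by
  obtain ⟨S, T, h⟩ := exists_iso hG
  have key : ∀ x : ℕ → G, Function.Injective x → ∃ p ∈ T, ∃ φ : ℕ → ℕ, StrictMono φ ∧
        ∀ m n : ℕ, m ≤ n →
          (Commute (x (φ n) * p.2 * (x (φ n))⁻¹) (x (φ m) * p.1 * (x (φ m))⁻¹) ↔ m < n) := by
    intro x hx
    obtain ⟨p, hp, φ, hφ, h1⟩ := h.ramsey x hx
    refine ⟨p, hp, φ, fun m n hmn => hφ m n hmn, fun m n hmn => ⟨fun h2 => ?_, fun h2 => ?_⟩⟩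
    · rcases Nat.lt_or_eq_of_le hmn with h3 | rfl
      · exact h3
      · exfalso
        refine (h.t1 p hp).2.2 ?_
        have h3 : (x (φ m) * p.2 * (x (φ m))⁻¹) * (x (φ m) * p.1 * (x (φ m))⁻¹) =
          (x (φ m) * p.1 * (x (φ m))⁻¹) * (x (φ m) * p.2 * (x (φ m))⁻¹) := h2
        have h4 := congrArg (fun y => (x (φ m))⁻¹ * y * x (φ m)) h3
        have e1 : (x (φ m))⁻¹ * ((x (φ m) * p.2 * (x (φ m))⁻¹) * (x (φ m) * p.1 * (x (φ m))⁻¹)) *
          x (φ m) = p.2 * p.1 := by group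
        have e2 : (x (φ m))⁻¹ * ((x (φ m) * p.1 * (x (φ m))⁻¹) * (x (φ m) * p.2 * (x (φ m))⁻¹)) *
          x (φ m) = p.1 * p.2 := by group
        simp only [e1, e2] at h4
        rw [h4]
        group
    · have h2' := h1 m n h2
      have h3 := congrArg (fun y => x (φ m) * y * (x (φ m))⁻¹) h2'
      have e : x (φ m) * ((x (φ m))⁻¹ * x (φ n) * p.2 * ((x (φ m))⁻¹ * x (φ n))⁻¹ * p.1 *
          ((x (φ m))⁻¹ * x (φ n) * p.2 * ((x (φ m))⁻¹ * x (φ n))⁻¹)⁻¹) * (x (φ m))⁻¹ =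
          (x (φ n) * p.2 * (x (φ n))⁻¹) * (x (φ m) * p.1 * (x (φ m))⁻¹) *
          (x (φ n) * p.2 * (x (φ n))⁻¹)⁻¹ := by group
      simp only [e] at h3
      exact mul_inv_eq_iff_eq_mul.1 h3
  refine ⟨⟨T, fun p hp => ⟨(h.t1 p hp).1, (h.t1 p hp).2.1, fun h2 => (h.t1 p hp).2.2 ?_⟩, key⟩, ?_⟩
  · exact mul_inv_eq_iff_eq_mul.2 h2
  · let X := Infinite.natEmbedding G
    obtain ⟨p, hp, φ, hφ, h1⟩ := key X X.injective
    refine ⟨fun n => X (φ n) * p.1 * (X (φ n))⁻¹, fun n => ⟨?_, ?_⟩, ?_⟩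
    · have e : (X (φ n) * p.1 * (X (φ n))⁻¹) ^ 2 = X (φ n) * p.1 ^ 2 * (X (φ n))⁻¹ := by
        rw [pow_two, pow_two]; group
      rw [e, (h.t1 p hp).1]; simp
    · rw [isConj_iff]
      exact ⟨X (φ n) * (X (φ 0))⁻¹, by group⟩
    · refine strictAnti_nat_of_succ_lt fun n => ?_
      refine lt_of_le_of_ne (Subgroup.centralizer_le (Set.image_mono (Set.Iio_subset_Iio (by omega)))) ?_
      intro h2
      have h3 : X (φ n) * p.2 * (X (φ n))⁻¹ ∈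
          Subgroup.centralizer ((fun n => X (φ n) * p.1 * (X (φ n))⁻¹) '' Set.Iio n) := by
        rw [Subgroup.mem_centralizer_iff]
        rintro _ ⟨m, hm, rfl⟩
        exact ((h1 m n (le_of_lt hm)).2 hm).symm.eq
      rw [← h2, Subgroup.mem_centralizer_iff] at h3
      have h4 := h3 _ ⟨n, Set.mem_Iio.2 (Nat.lt_succ_self n), rfl⟩
      exact absurd ((h1 n n le_rfl).1 h4.symm) (lt_irrefl n)

end Pool.Agent.Results.MP_a76a9f_al.NotDiscrete
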